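import Pool.Agent.Lib.MP_99f32e_ag.Defs
import Pool.Agent.Lib.MP_99f32e_ag.RFinal

open AlgebraicGeometry CategoryTheory Pool.Agent.Lib.MP_99f32e_ag

universe u

namespace Pool.Agent.Results.MP_99f32e_ag.NormalFibres

theorem result (p : ℕ) [Fact p.Prime] (k : Type u) [Field k] [IsAlgClosed k] [CharP k p] :
    ∃ (X Z : Scheme.{u}) (_ : IsIntegral X) (_ : IsIntegral Z) (_ : IsLocallyNoetherian X)
      (_ : IsLocallyNoetherian Z) (π : Z ⟶ Spec (.of k)) (h : X ⟶ Z) (_ : Surjective h),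
      Smooth π ∧ IsProjective π ∧ Smooth (h ≫ π) ∧ IsProjective (h ≫ π) ∧
      (∀ U : Z.Opens, IsIso (h.app U)) ∧ GeometricallyIntegral h ∧
      geometrically (fun W => ∀ w : W, IsIntegrallyClosed (W.presheaf.stalk w)) h ∧
      (∃ KX, IsCanonicalDiv (h ≫ π) KX) ∧ (∃ KZ, IsCanonicalDiv π KZ) ∧
      ∀ KX KZ, IsCanonicalDiv (h ≫ π) KX → IsCanonicalDiv π KZ →
        (∃ D E, IsPullbackDiv h D E ∧ QLinEq KX E) ∧
        ¬ ∃ Δ E, 0 ≤ Δ ∧ IsPullbackDiv h (KZ + Δ) E ∧ QLinEq KX E :=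
  counterexample' p k

end Pool.Agent.Results.MP_99f32e_ag.NormalFibres
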